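import Mathlib
import Pool.Agent.R293.Ced

/-!
# MP_ced2c5_an: unital homomorphisms from `𝒪_∞` which agree under a state but are not approximately
conjugate by state preserving automorphisms

There are a separable simple purely infinite unital C*-algebra `D`, a state `μ` on `D`, two unital
homomorphisms `φ₁, φ₂ : 𝒪_∞ → D` with `μ ∘ φ₁ = μ ∘ φ₂` and a projection `e ∈ 𝒪_∞` such that
`‖φ₂(e) - α(φ₁(e))‖ ≥ 1/6` for every `μ`-preserving automorphism `α` of `D`.  So both questions of
the problem have a negative answer.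

`D` is the C*-algebra of operators on `ℓ²` of the nonempty words over `ℤ` generated by the
isometries `s_x` (put the letter `x` in front) and the translations `u_h` of the first letter;
`φ₁` is the inclusion of the C*-algebra generated by the `s_x`, `φ₂` is `φ₁` after the exchange of
two of the `s_x`, and `e = s_a s_a*`.  The state `μ` is the sum of three vector functionals of words
of length two plus a cross term which is invisible on `C*(s_x)`; `φ₁(e)` is in the centralizer of
`μ` and `φ₂(e)` is not.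
-/

set_option autoImplicit false

namespace Pool.Agent.Results.MP_ced2c5_an.NotStateConjugate

/-- `B` is simple: `B ≠ 0` and every closed two-sided ideal is `0` or `B`. -/
def Simple (B : Type) [CStarAlgebra B] : Prop :=
  Nontrivial B ∧ ∀ I : TwoSidedIdeal B, IsClosed (I : Set B) → I = ⊥ ∨ I = ⊤

/-- `p` is an infinite projection: it is Murray–von Neumann equivalent to a proper subprojection
`w w*` of itself. -/
def InfiniteProjection {B : Type} [CStarAlgebra B] (p : B) : Prop :=
  star p = p ∧ p * p = p ∧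
    ∃ w : B, star w * w = p ∧ p * (w * star w) = w * star w ∧ w * star w ≠ p

/-- `H` is a hereditary C*-subalgebra of `B`: a closed `*`-subalgebra such that `0 ≤ y ≤ x` and
`x ∈ H` imply `y ∈ H`; here `y = c* c` and `x - y = d* d`. -/
def Hereditary {B : Type} [CStarAlgebra B] (H : NonUnitalStarSubalgebra ℂ B) : Prop :=
  IsClosed (H : Set B) ∧ ∀ c d : B, star c * c + star d * d ∈ H → star c * c ∈ H

/-- Pure infiniteness: every nonzero hereditary C*-subalgebra contains an infinite projection. -/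
def PurelyInfinite (B : Type) [CStarAlgebra B] : Prop :=
  ∀ H : NonUnitalStarSubalgebra ℂ B, Hereditary H → (∃ b ∈ H, b ≠ 0) →
    ∃ p ∈ H, InfiniteProjection p

/-- `O` is the Cuntz algebra `𝒪_∞`: a nonzero unital C*-algebra generated by a sequence of
isometries with mutually orthogonal ranges. -/
def IsCuntzInfinity (O : Type) [CStarAlgebra O] : Prop :=
  Nontrivial O ∧ ∃ s : ℕ → O, (∀ i, star (s i) * s i = 1) ∧ (∀ i j, i ≠ j → star (s i) * s j = 0) ∧
    (StarAlgebra.adjoin ℂ (Set.range s)).topologicalClosure = ⊤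

/-- `μ` is a state. -/
def IsState {D : Type} [CStarAlgebra D] (μ : D →ₗ[ℂ] ℂ) : Prop :=
  μ 1 = 1 ∧ ∀ x, 0 ≤ (μ (star x * x)).re ∧ (μ (star x * x)).im = 0

/-- A separable simple purely infinite unital C*-algebra `D` with a state `μ`, and unital
homomorphisms `φ₁, φ₂ : 𝒪_∞ → D` with `μ ∘ φ₁ = μ ∘ φ₂`, such that for some projection `e ∈ 𝒪_∞`
every `μ`-preserving automorphism `α` of `D` satisfies `‖φ₂(e) - α(φ₁(e))‖ ≥ 1/6`. -/
theorem result :
    ∃ (D : Type) (_ : CStarAlgebra D) (μ : D →ₗ[ℂ] ℂ) (O : Type) (_ : CStarAlgebra O)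
      (φ₁ φ₂ : O →⋆ₐ[ℂ] D) (e : O),
      TopologicalSpace.SeparableSpace D ∧ Simple D ∧ PurelyInfinite D ∧ IsState μ ∧
      IsCuntzInfinity O ∧ (∀ a, μ (φ₁ a) = μ (φ₂ a)) ∧ star e = e ∧ e * e = e ∧
      ∀ α : D ≃⋆ₐ[ℂ] D, (∀ x, μ (α x) = μ x) → 1 / 6 ≤ ‖φ₂ e - α (φ₁ e)‖ := by
  refine ⟨Pool.Agent.R293.OI.DD, inferInstance, Pool.Agent.R293.Ced.μ, Pool.Agent.R293.OI.OO,
    inferInstance, Pool.Agent.R293.Ced.φ₁, Pool.Agent.R293.Ced.φ₂, Pool.Agent.R293.Ced.e,
    Pool.Agent.R293.OI.DD_sep, Pool.Agent.R293.OI.DD_simple, Pool.Agent.R293.OI.DD_pi, ?_,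
    Pool.Agent.R293.OI.OO_cuntz, Pool.Agent.R293.Ced.same, Pool.Agent.R293.Ced.e_star,
    Pool.Agent.R293.Ced.e_e, Pool.Agent.R293.Ced.key⟩
  refine ⟨Pool.Agent.R293.Ced.M_one, fun x => ?_⟩
  have h := Pool.Agent.R293.Ced.M_nonneg (x : Pool.Agent.R293.OI.BB)
  rw [Complex.nonneg_iff] at h
  exact ⟨h.1, h.2.symm⟩

end Pool.Agent.Results.MP_ced2c5_an.NotStateConjugate
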